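import Pool.Agent.PFS.StmtsH

/-!
# Row THN: thin triangles
-/

set_option autoImplicit false

open Matrix Filter Topology

namespace Pool.Agent.PFS.H82

variable {n : ℕ}

theorem comb_mem {C : Set (V n)} (h : PCone C) {p r : V n} (hp : p ∈ C) (hr : r ∈ C) {a b : ℝ}
    (ha : 0 ≤ a) (hb : 0 ≤ b) (hab : 0 < a + b) : a • p + b • r ∈ C := by
  rcases ha.eq_or_lt with h0 | h0
  · have hb' : 0 < b := by linarith
    exact h.cl_add' (h.cl_smul (subset_closure hp) ha) (h.smul r hr b hb')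
  · exact h.add_cl (h.smul p hp a h0) (h.cl_smul (subset_closure hr) hb)

/-- limits of incomparable points lie outside of the cone -/
theorem out {C : Set (V n)} {Γ : Subgroup (GL (Fin n) ℝ)} (h : CC C Γ) (cmf : CmfStmt)
    (cmc : CmcStmt) {x u r : ℕ → V n} {x0 u0 r0 : V n} (hx : Tendsto x atTop (𝓝 x0))
    (hx0 : x0 ∈ C) (hu : Tendsto u atTop (𝓝 u0)) (hr : Tendsto r atTop (𝓝 r0))
    (huC : ∀ m, u m ∈ C) (hrC : ∀ m, r m ∈ C)
    (k : ℕ → ℕ) (hk : StrictMono k)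
    (hn : ∀ m, ∀ a b : ℝ, 0 ≤ a → 0 ≤ b → 0 < a + b →
      ¬ Cmp C ((k m : ℝ) + 1) (x m) (a • u m + b • r m)) :
    ∀ a b : ℝ, 0 ≤ a → 0 ≤ b → 0 < a + b → a • u0 + b • r0 ∉ C := by
  intro a b ha hb hab hmem
  have hy : Tendsto (fun m => a • u m + b • r m) atTop (𝓝 (a • u0 + b • r0)) :=
    (hu.const_smul a).add (hr.const_smul b)
  obtain ⟨M, hM, hev⟩ := cmc n C h.toPCone x _ x0 _ hx0 hmem hx hy
  have hev2 : ∀ᶠ m in atTop, M ≤ (k m : ℝ) + 1 := by
    have h1 : Tendsto (fun m => (k m : ℝ) + 1) atTop atTop :=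
      tendsto_atTop_add_const_right _ _ (tendsto_natCast_atTop_atTop.comp hk.tendsto_atTop)
    exact h1.eventually_ge_atTop M
  obtain ⟨m, hm1, hm2⟩ := (hev.and hev2).exists
  exact hn m a b ha hb hab ((cmf n C Γ h).2.2.1 M _ _ _ hm2
    (comb_mem h.toPCone (huC m) (hrC m) ha hb hab) hm1)

theorem thn (cmf : CmfStmt) (cmc : CmcStmt) (zom : ZomStmt) (clo : CloStmt) (tri : TriStmt) :
    ThnStmt := by
  intro n C Γ h hno
  obtain ⟨-, -, hmono, hact, hsc, hrefl, -, -⟩ := cmf n C Γ h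
  by_contra hcon
  push Not at hcon
  have hul := h.hul
  have hdat : ∀ m : ℕ, ∃ P Q R : V n, (P ∈ C ∧ P ∈ Hull C Γ) ∧ (Q ∈ C ∧ Q ∈ Hull C Γ) ∧
      (R ∈ C ∧ R ∈ Hull C Γ) ∧
      (∀ a b : ℝ, 0 ≤ a → 0 ≤ b → 0 < a + b → ¬ Cmp C ((m : ℝ) + 1) (P + Q) (a • P + b • R)) ∧
      (∀ a b : ℝ, 0 ≤ a → 0 ≤ b → 0 < a + b → ¬ Cmp C ((m : ℝ) + 1) (P + Q) (a • Q + b • R)) := by
    intro m
    have hm1 : (1 : ℝ) ≤ (m : ℝ) + 1 := by
      have := Nat.cast_nonneg (α := ℝ) m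
      linarith
    obtain ⟨p, hp, hpH, q, hq, hqH, r, hr, hrH, x, ⟨a, b, ha, hb, hab, rfl⟩, hx⟩ := hcon _ hm1
    have ha' : 0 < a := by
      rcases ha.eq_or_lt with h0 | h0
      · exfalso
        have hb' : 0 < b := by linarith
        refine hx q (Or.inr ⟨0, 1, le_refl _, zero_le_one, by norm_num, by simp⟩) ?_
        have h1 := (hsc ((m : ℝ) + 1) b 1 q q hb' one_pos).2 (hrefl _ _ hm1 hq)
        rw [one_smul] at h1
        rw [← h0, zero_smul, zero_add]
        exact h1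
      · exact h0
    have hb' : 0 < b := by
      rcases hb.eq_or_lt with h0 | h0
      · exfalso
        refine hx p (Or.inl ⟨1, 0, zero_le_one, le_refl _, by norm_num, by simp⟩) ?_
        have h1 := (hsc ((m : ℝ) + 1) a 1 p p ha' one_pos).2 (hrefl _ _ hm1 hp)
        rw [one_smul] at h1
        rw [← h0, zero_smul, add_zero]
        exact h1
      · exact h0
    refine ⟨a • p, b • q, r, ⟨h.smul p hp a ha', hul.smul p hpH a ha'⟩,
      ⟨h.smul q hq b hb', hul.smul q hqH b hb'⟩, ⟨hr, hrH⟩, ?_, ?_⟩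
    · intro a' b' ha1 hb1 hab1
      refine hx _ (Or.inl ⟨a' * a, b', by positivity, hb1, ?_, by rw [smul_smul]⟩)
      rcases ha1.eq_or_lt with h0 | h0
      · rw [← h0] at hab1 ⊢
        linarith
      · have := mul_pos h0 ha'
        linarith
    · intro a' b' ha1 hb1 hab1
      refine hx _ (Or.inr ⟨b', a' * b, hb1, by positivity, ?_, by rw [smul_smul, add_comm]⟩)
      rcases ha1.eq_or_lt with h0 | h0
      · rw [← h0] at hab1 ⊢
        linarith
      · have := mul_pos h0 hb'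
        linarith
  choose P Q R hP hQ hR hnP hnQ using hdat
  obtain ⟨φ, g, s, x0, hφ, hg, hs, hx0, hlim⟩ := zom n C Γ h (fun m => P m + Q m)
    (fun m => h.add_cl (hP m).1 (subset_closure (hQ m).1))
    (fun m => hul.add _ (hP m).2 _ (hQ m).2)
  have hGC : ∀ m v, v ∈ C → s m • act (g m) v ∈ C := fun m v hv =>
    (h.sact_mem_iff (hg m) (hs m)).2 hv
  have hGH : ∀ m v, v ∈ Hull C Γ → s m • act (g m) v ∈ Hull C Γ := fun m v hv =>
    hul.smul _ (hul.act v hv _ (hg m)) _ (hs m)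
  have hGcmp : ∀ m M u v, Cmp C M (s m • act (g m) u) (s m • act (g m) v) ↔ Cmp C M u v := by
    intro m M u v
    rw [hsc M (s m) (s m) _ _ (hs m) (hs m), hact M u v (g m) (hg m)]
  have hGadd : ∀ m u v, s m • act (g m) (u + v) = s m • act (g m) u + s m • act (g m) v := by
    intro m u v
    rw [CC.act_add, smul_add]
  have hGsmul : ∀ m (a : ℝ) u, s m • act (g m) (a • u) = a • (s m • act (g m) u) := by
    intro m a u
    rw [CC.act_smul, smul_comm]
  let p1 : ℕ → V n := fun m => s m • act (g m) (P (φ m))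
  let q1 : ℕ → V n := fun m => s m • act (g m) (Q (φ m))
  let N : ℕ → ℝ := fun m => ‖s m • act (g m) (R (φ m))‖⁻¹
  let r1 : ℕ → V n := fun m => N m • (s m • act (g m) (R (φ m)))
  have hp1 : ∀ m, p1 m ∈ C ∧ p1 m ∈ Hull C Γ := fun m => ⟨hGC m _ (hP _).1, hGH m _ (hP _).2⟩
  have hq1 : ∀ m, q1 m ∈ C ∧ q1 m ∈ Hull C Γ := fun m => ⟨hGC m _ (hQ _).1, hGH m _ (hQ _).2⟩
  have hR0 : ∀ m, 0 < ‖s m • act (g m) (R (φ m))‖ := fun m =>
    norm_pos_iff.2 (h.ne_zero (hGC m _ (hR _).1))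
  have hN : ∀ m, 0 < N m := fun m => inv_pos.2 (hR0 m)
  have hr1 : ∀ m, r1 m ∈ C ∧ r1 m ∈ Hull C Γ := fun m =>
    ⟨h.smul _ (hGC m _ (hR _).1) _ (hN m), hul.smul _ (hGH m _ (hR _).2) _ (hN m)⟩
  have hr1n : ∀ m, ‖r1 m‖ = 1 := by
    intro m
    change ‖N m • _‖ = 1
    rw [norm_smul, Real.norm_of_nonneg (hN m).le]
    exact inv_mul_cancel₀ (hR0 m).ne'
  have hlim' : Tendsto (fun m => p1 m + q1 m) atTop (𝓝 x0) := by
    refine hlim.congr fun m => ?_
    exact hGadd m _ _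
  have hn1 : ∀ m, ∀ a b : ℝ, 0 ≤ a → 0 ≤ b → 0 < a + b →
      ¬ Cmp C ((φ m : ℝ) + 1) (p1 m + q1 m) (a • p1 m + b • r1 m) := by
    intro m a b ha hb hab hc
    have h1 : p1 m + q1 m = s m • act (g m) (P (φ m) + Q (φ m)) := (hGadd m _ _).symm
    have h2 : a • p1 m + b • r1 m = s m • act (g m) (a • P (φ m) + (b * N m) • R (φ m)) := by
      rw [hGadd, hGsmul, hGsmul, mul_smul]
    rw [h1, h2, hGcmp] at hc
    refine hnP (φ m) a (b * N m) ha (mul_nonneg hb (hN m).le) ?_ hc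
    rcases ha.eq_or_lt with h0 | h0
    · rw [← h0, zero_add] at hab ⊢
      exact mul_pos hab (hN m)
    · have := mul_nonneg hb (hN m).le
      linarith
  have hn2 : ∀ m, ∀ a b : ℝ, 0 ≤ a → 0 ≤ b → 0 < a + b →
      ¬ Cmp C ((φ m : ℝ) + 1) (p1 m + q1 m) (a • q1 m + b • r1 m) := by
    intro m a b ha hb hab hc
    have h1 : p1 m + q1 m = s m • act (g m) (P (φ m) + Q (φ m)) := (hGadd m _ _).symm
    have h2 : a • q1 m + b • r1 m = s m • act (g m) (a • Q (φ m) + (b * N m) • R (φ m)) := by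
      rw [hGadd, hGsmul, hGsmul, mul_smul]
    rw [h1, h2, hGcmp] at hc
    refine hnQ (φ m) a (b * N m) ha (mul_nonneg hb (hN m).le) ?_ hc
    rcases ha.eq_or_lt with h0 | h0
    · rw [← h0, zero_add] at hab ⊢
      exact mul_pos hab (hN m)
    · have := mul_nonneg hb (hN m).le
      linarith
  obtain ⟨B, hB, hBn⟩ := h.normal
  obtain ⟨D, hD⟩ : ∃ D : ℝ, ∀ m, ‖p1 m + q1 m‖ ≤ D := by
    obtain ⟨D, hD⟩ := (Metric.isBounded_range_of_tendsto _ hlim').exists_norm_le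
    exact ⟨D, fun m => hD _ ⟨m, rfl⟩⟩
  have hpb : ∀ m, ‖p1 m‖ ≤ B * D := by
    intro m
    refine (hBn _ (p1 m + q1 m) (subset_closure (hp1 m).1) ?_).trans
      (mul_le_mul_of_nonneg_left (hD m) hB.le)
    rw [add_sub_cancel_left]
    exact subset_closure (hq1 m).1
  have hqb : ∀ m, ‖q1 m‖ ≤ B * D := by
    intro m
    refine (hBn _ (p1 m + q1 m) (subset_closure (hq1 m).1) ?_).trans
      (mul_le_mul_of_nonneg_left (hD m) hB.le)
    rw [add_sub_cancel_right]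
    exact subset_closure (hp1 m).1
  have hbdd : Bornology.IsBounded (Metric.closedBall (0 : V n × V n × V n) (max (B * D) 1)) :=
    Metric.isBounded_closedBall
  obtain ⟨⟨p0, q0, r0⟩, -, ψ, hψ, hlim3⟩ := tendsto_subseq_of_bounded hbdd
    (x := fun m => (p1 m, q1 m, r1 m)) (fun m => by
      rw [Metric.mem_closedBall, dist_zero_right, Prod.norm_def, Prod.norm_def]
      exact max_le ((hpb m).trans (le_max_left _ _))
        (max_le ((hqb m).trans (le_max_left _ _)) ((hr1n m).le.trans (le_max_right _ _))))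
  have hp0 : Tendsto (fun m => p1 (ψ m)) atTop (𝓝 p0) :=
    (continuous_fst.tendsto _).comp hlim3
  have hq0 : Tendsto (fun m => q1 (ψ m)) atTop (𝓝 q0) :=
    ((continuous_fst.comp continuous_snd).tendsto _).comp hlim3
  have hr0 : Tendsto (fun m => r1 (ψ m)) atTop (𝓝 r0) :=
    ((continuous_snd.comp continuous_snd).tendsto _).comp hlim3
  have hxlim : Tendsto (fun m => p1 (ψ m) + q1 (ψ m)) atTop (𝓝 x0) :=
    hlim'.comp hψ.tendsto_atTop
  have hx0e : p0 + q0 = x0 := tendsto_nhds_unique (hp0.add hq0) hxlim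
  have hr0n : ‖r0‖ = 1 := by
    refine tendsto_nhds_unique hr0.norm ?_
    refine tendsto_const_nhds.congr fun m => ?_
    exact (hr1n _).symm
  have hA := out h cmf cmc hxlim hx0 hp0 hr0 (fun m => (hp1 _).1) (fun m => (hr1 _).1)
    (fun m => φ (ψ m)) (hφ.comp hψ) (fun m => hn1 (ψ m))
  have hBq := out h cmf cmc hxlim hx0 hq0 hr0 (fun m => (hq1 _).1) (fun m => (hr1 _).1)
    (fun m => φ (ψ m)) (hφ.comp hψ) (fun m => hn2 (ψ m))
  have hp0C : p0 ∉ C := by
    have := hA 1 0 zero_le_one (le_refl _) (by norm_num)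
    simpa using this
  have hq0C : q0 ∉ C := by
    have := hBq 1 0 zero_le_one (le_refl _) (by norm_num)
    simpa using this
  have hr0C : r0 ∉ C := by
    have := hA 0 1 (le_refl _) zero_le_one (by norm_num)
    simpa using this
  have hp00 : p0 ≠ 0 := by
    intro h0
    rw [h0, zero_add] at hx0e
    rw [hx0e] at hq0C
    exact hq0C hx0
  have hq00 : q0 ≠ 0 := by
    intro h0
    rw [h0, add_zero] at hx0e
    rw [hx0e] at hp0C
    exact hp0C hx0
  have hr00 : r0 ≠ 0 := by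
    intro h0
    rw [h0, norm_zero] at hr0n
    exact zero_ne_one hr0n
  refine hno (tri n C Γ h p0 (clo n C Γ h _ _ (fun m => (hp1 _).2) hp0 hp0C hp00)
    q0 (clo n C Γ h _ _ (fun m => (hq1 _).2) hq0 hq0C hq00)
    r0 (clo n C Γ h _ _ (fun m => (hr1 _).2) hr0 hr0C hr00) ?_ ?_ ?_)
  · rw [hx0e]
    exact hx0
  · have := hA 1 1 zero_le_one zero_le_one (by norm_num)
    simpa using this
  · have := hBq 1 1 zero_le_one zero_le_one (by norm_num)
    simpa using this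

end Pool.Agent.PFS.H82
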